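import Mathlib
import Pool.Agent.H462R2.AP4

set_option autoImplicit false

open Set Filter Topology

namespace Pool.Agent.Results.MP_8f2e1c_an.AlmostAllPowers

/-- `P / Q` is in lowest terms and every critical point (point of the Riemann sphere where the map
is not locally injective) has an orbit converging to an attracting periodic cycle. This is word
for word the condition of the frozen statement `S03675`. -/
def Hyperbolic (P Q : Polynomial ℂ) : Prop :=
  IsCoprime P Q ∧ ∃ f : OnePoint ℂ → OnePoint ℂ, Continuous f ∧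
    (∀ z : ℂ, Q.eval z ≠ 0 →
      f (OnePoint.some z) = OnePoint.some (P.eval z / Q.eval z)) ∧
    ∀ c : OnePoint ℂ, (¬ ∃ U ∈ nhds c, Set.InjOn f U) →
      ∃ z : OnePoint ℂ, ∃ n : ℕ, 0 < n ∧ f^[n] z = z ∧
        (∃ U ∈ nhds z, ∀ w ∈ U,
          Filter.Tendsto (fun k : ℕ => f^[n * k] w) Filter.atTop (nhds z)) ∧
        Filter.Tendsto (fun k : ℕ => f^[n * k] c) Filter.atTop (nhds z)

/-- The pair `(p, q)` is `(P, Q)` at `0`, at `∞` (the coefficients of degree
`max (deg P) (deg Q)`), or at a zero of `P' Q - P Q'`: so `p / q` is the value of `P / Q` at `0`, at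
`∞` or at a critical point. -/
def Marked (P Q : Polynomial ℂ) (p q : ℂ) : Prop :=
  (p = P.eval 0 ∧ q = Q.eval 0) ∨
    (p = P.coeff (max P.natDegree Q.natDegree) ∧ q = Q.coeff (max P.natDegree Q.natDegree)) ∨
    ∃ y : ℂ, (Polynomial.derivative P * Q - P * Polynomial.derivative Q).eval y = 0 ∧
      p = P.eval y ∧ q = Q.eval y

/-- The value of `s P / Q` at `0`, at `∞` or at a critical point is a root of unity. -/
def RootOfUnityMark (P Q : Polynomial ℂ) (s : ℂ) : Prop :=
  ∃ p q : ℂ, Marked P Q p q ∧ ∃ k : ℕ, 0 < k ∧ (s * p) ^ k = q ^ k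

/-- The degrees in which hyperbolicity fails: the `n ≥ 2` such that `s P(z ^ n) / Q(z ^ n)` is not
hyperbolic. -/
def exceptional (P Q : Polynomial ℂ) (s : ℂ) : Set ℕ :=
  {n | 2 ≤ n ∧ ¬ Hyperbolic (Polynomial.C s * Polynomial.expand ℂ n P) (Polynomial.expand ℂ n Q)}

/-- Let `R = P / Q` be any rational map of degree at least one. For every `s ≠ 0` outside an
explicit countable set and such that `|s R|` is not identically one on the unit circle, the
rational map `s R(z ^ n)` is hyperbolic for all `n` outside a set of density zero. -/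
theorem result :
    ∀ P Q : Polynomial ℂ, IsCoprime P Q → 1 ≤ max P.natDegree Q.natDegree →
      {s : ℂ | s ≠ 0 ∧ RootOfUnityMark P Q s}.Countable ∧
      ∀ s : ℂ, s ≠ 0 → ¬ RootOfUnityMark P Q s →
        (∃ u : ℂ, ‖u‖ = 1 ∧ ‖s * P.eval u‖ ≠ ‖Q.eval u‖) →
        Tendsto (fun N : ℕ => ((exceptional P Q s ∩ Iio N).ncard : ℝ) / N) atTop (𝓝 0) := by
  intro P Q hc hD1
  have hiff : ∀ (P Q : Polynomial ℂ) (D : ℕ), D = max P.natDegree Q.natDegree → ∀ p q : ℂ,
      (p, q) ∈ Pool.Agent.H462R2.AP.marks' P Q D ↔ Marked P Q p q := by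
    intro P Q D hD p q
    subst hD
    unfold Pool.Agent.H462R2.AP.marks' Marked Pool.Agent.H762R2.Rt.wro
    simp only [mem_union, mem_insert_iff, mem_singleton_iff, mem_image, Prod.mk.injEq]
    constructor
    · rintro ((h | h) | ⟨y, hy, h1, h2⟩)
      · exact Or.inl h
      · exact Or.inr (Or.inl h)
      · exact Or.inr (Or.inr ⟨y, hy, h1.symm, h2.symm⟩)
    · rintro (h | h | ⟨y, hy, h1, h2⟩)
      · exact Or.inl (Or.inl h)
      · exact Or.inl (Or.inr h)
      · exact Or.inr ⟨y, hy, h1.symm, h2.symm⟩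
  have hfin : {x : ℂ × ℂ | Marked P Q x.1 x.2}.Finite := by
    have := Pool.Agent.H462R2.AP.marks'_finite (D := max P.natDegree Q.natDegree) hc hD1
    refine this.subset fun x hx => ?_
    exact (hiff P Q _ rfl x.1 x.2).2 hx
  refine ⟨?_, ?_⟩
  · have h1 : {s : ℂ | s ≠ 0 ∧ RootOfUnityMark P Q s} ⊆
        ⋃ x ∈ {x : ℂ × ℂ | Marked P Q x.1 x.2}, ⋃ k : ℕ,
          {s : ℂ | s ≠ 0 ∧ 0 < k ∧ (s * x.1) ^ k = x.2 ^ k} := by
      rintro s ⟨hs, p, q, hpq, k, hk, h⟩
      simp only [mem_iUnion]
      exact ⟨(p, q), hpq, k, hs, hk, h⟩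
    refine Set.Countable.mono h1 ?_
    refine hfin.countable.biUnion fun x hx => countable_iUnion fun k => Set.Finite.countable ?_
    -- both coordinates of a marked pair do not vanish together
    have hne : x.1 ≠ 0 ∨ x.2 ≠ 0 := by
      rcases hx with ⟨h1, h2⟩ | ⟨h1, h2⟩ | ⟨y, -, h1, h2⟩
      · rw [h1, h2]; exact Pool.Agent.H462R2.AP.coprime_eval hc 0
      · have h4 := Pool.Agent.Helper114.Herman.hom_not_both hc
          (d := max P.natDegree Q.natDegree) rfl (u := 1) (v := 0)
          (Or.inl one_ne_zero) hD1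
        rw [Pool.Agent.Helper114.Herman.hom_zero, Pool.Agent.Helper114.Herman.hom_zero] at h4
        simpa [h1, h2] using h4
      · rw [h1, h2]; exact Pool.Agent.H462R2.AP.coprime_eval hc y
    by_cases hk : 0 < k
    swap
    · refine Set.Finite.subset Set.finite_empty ?_
      rintro s ⟨-, h, -⟩
      exact absurd h hk
    by_cases hx1 : x.1 = 0
    · refine Set.Finite.subset Set.finite_empty ?_
      rintro s ⟨-, -, h⟩
      rw [hx1, mul_zero, zero_pow hk.ne'] at h
      exact (pow_ne_zero k (hne.resolve_left (fun h => h hx1)) h.symm).elim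
    · have h2 : (Multiset.toFinset (Polynomial.nthRoots k (x.2 ^ k / x.1 ^ k))
          : Set ℂ).Finite := Finset.finite_toSet _
      refine h2.subset ?_
      rintro s ⟨-, -, h⟩
      rw [Finset.mem_coe, Multiset.mem_toFinset, Polynomial.mem_nthRoots hk, eq_div_iff
        (pow_ne_zero k hx1), ← mul_pow]
      exact h
  · intro s hs hroot hne
    set P' := Polynomial.C s * P with hP'
    have hdeg : P'.natDegree = P.natDegree := Polynomial.natDegree_C_mul hs
    have hc' : IsCoprime P' Q := by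
      have hu : IsUnit (Polynomial.C s) := Polynomial.isUnit_C.2 (isUnit_iff_ne_zero.2 hs)
      exact (isCoprime_mul_unit_left_left hu _ _).2 hc
    have hD' : max P.natDegree Q.natDegree = max P'.natDegree Q.natDegree := by rw [hdeg]
    have hmain := Pool.Agent.H462R2.AP.density_hyp hc' hD' hD1 (by
      obtain ⟨u, hu, h⟩ := hne
      refine ⟨u, hu, ?_⟩
      rwa [hP', Polynomial.eval_mul, Polynomial.eval_C]) (by
      rintro ⟨p, q⟩ hx k hk h
      rw [hiff P' Q _ hD'] at hx
      apply hroot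
      have hp : ∃ p₀ : ℂ, p = s * p₀ ∧ Marked P Q p₀ q := by
        rcases hx with ⟨h1, h2⟩ | ⟨h1, h2⟩ | ⟨y, hy, h1, h2⟩
        · exact ⟨P.eval 0, by rw [h1, hP', Polynomial.eval_mul, Polynomial.eval_C],
            Or.inl ⟨rfl, h2⟩⟩
        · refine ⟨P.coeff (max P.natDegree Q.natDegree), ?_, Or.inr (Or.inl ⟨rfl, ?_⟩)⟩
          · rw [h1, hP', Polynomial.coeff_C_mul, ← hP', ← hD']
          · rw [h2, ← hD']
        · refine ⟨P.eval y, by rw [h1, hP', Polynomial.eval_mul, Polynomial.eval_C],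
            Or.inr (Or.inr ⟨y, ?_, rfl, h2⟩)⟩
          rw [hP', Polynomial.derivative_C_mul] at hy
          have h3 : s * (Polynomial.derivative P * Q - P * Polynomial.derivative Q).eval y = 0 := by
            rw [← hy]
            simp only [Polynomial.eval_sub, Polynomial.eval_mul, Polynomial.eval_C]
            ring
          exact (mul_eq_zero.1 h3).resolve_left hs
      obtain ⟨p₀, hp0, hm⟩ := hp
      exact ⟨p₀, q, hm, k, hk, by rw [← hp0]; exact h⟩)
    have hset : exceptional P Q s = {n : ℕ | 2 ≤ n ∧ ¬ Pool.Agent.H762R2.Rt.Hyp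
        (Polynomial.expand ℂ n P') (Polynomial.expand ℂ n Q)} := by
      ext n
      unfold exceptional
      rw [hP', mem_ofPred_eq, mem_ofPred_eq, map_mul, Polynomial.expand_C]
      rfl
    rw [hset]
    exact hmain

end Pool.Agent.Results.MP_8f2e1c_an.AlmostAllPowers
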