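import Pool.Agent.H792R2.CE.Main

set_option autoImplicit false

open Filter Topology Polynomial MeasureTheory
open scoped OnePoint

namespace Pool.Agent.Results.MP_8f2e1c_an.ExpandingCritical

/-- The rational function `P / Q` as a map of the plane (with junk value at the poles, where it is
never used). -/
noncomputable def plane (P Q : ℂ[X]) (z : ℂ) : ℂ := P.eval z / Q.eval z

/-- The polynomial `P' Q - P Q'`. Its zeros outside the poles are the finite critical points of
`P / Q` which are not poles, with the same multiplicities. -/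
noncomputable def critPoly (P Q : ℂ[X]) : ℂ[X] := derivative P * Q - P * derivative Q

/-- The point `x` of the sphere lies in the basin of an attracting cycle of `f` which does not pass
through `∞`: there are `n ≥ 1` and a point `z` of period `n` whose orbit is finite and whose
multiplier has modulus smaller than one, with `f^{nk}(x) → z`. Here `g` is the restriction of `f`
to the plane. -/
def Attracted (f : OnePoint ℂ → OnePoint ℂ) (g : ℂ → ℂ) (x : OnePoint ℂ) : Prop :=
  ∃ n : ℕ, 0 < n ∧ ∃ z : ℂ, (∀ i : ℕ, f^[i] (z : OnePoint ℂ) ≠ ∞) ∧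
    f^[n] (z : OnePoint ℂ) = (z : OnePoint ℂ) ∧ ‖deriv (g^[n]) z‖ < 1 ∧
    Tendsto (fun k : ℕ => f^[n * k] x) atTop (𝓝 (z : OnePoint ℂ))

/-- Density of hyperbolicity at expanding maps. Let `f = P / Q` be a rational map of degree
`d ≥ 2`, normalised so that `∞` lies in the basin of an attracting cycle not containing `∞`, and
suppose that the attracted points are dense. Suppose that for some `μ > 1` there are infinitely
many `n` such that every critical point `c` is attracted or satisfies
`max_{m ≤ n} |(f^m)'(f c)| ≥ μ^n`. Suppose moreover that every critical point `c` is attracted, or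
multiple, or such that `∑_m 1 / |(f^m)'(f c)| < ∞` and the closure of its orbit has zero area. Then
`f` is a limit of rational maps of degree `d` all of whose critical points are attracted by
periodic sinks (same formula as in the frozen statement). -/
theorem result (d : ℕ) (hd : 2 ≤ d) (P Q : ℂ[X]) (hPQ : IsCoprime P Q)
    (hdeg : max P.natDegree Q.natDegree = d) (f : OnePoint ℂ → OnePoint ℂ) (hf : Continuous f)
    (hfe : ∀ z : ℂ, Q.eval z ≠ 0 →
      f (OnePoint.some z) = OnePoint.some (P.eval z / Q.eval z))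
    (hinf : Attracted f (plane P Q) ∞)
    (hdense : Dense {z : ℂ | Attracted f (plane P Q) (z : OnePoint ℂ)}) {μ : ℝ} (hμ : 1 < μ)
    (hexp : ∃ᶠ n : ℕ in atTop, ∀ c : ℂ, (critPoly P Q).eval c = 0 →
      Attracted f (plane P Q) (c : OnePoint ℂ) ∨
        ∃ m ≤ n, μ ^ n ≤ ‖deriv ((plane P Q)^[m]) (plane P Q c)‖)
    (hsimple : ∀ c : ℂ, (critPoly P Q).eval c = 0 →
      Attracted f (plane P Q) (c : OnePoint ℂ) ∨ 2 ≤ (critPoly P Q).rootMultiplicity c ∨
        (volume (closure (Set.range fun m : ℕ => (plane P Q)^[m] (plane P Q c))) = 0 ∧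
          Summable fun m : ℕ => ‖deriv ((plane P Q)^[m]) (plane P Q c)‖⁻¹)) :
    ∀ ε : ℝ, 0 < ε → ∃ P' Q' : Polynomial ℂ, IsCoprime P' Q' ∧
      max P'.natDegree Q'.natDegree = d ∧
      (∀ i : ℕ, ‖P'.coeff i - P.coeff i‖ < ε ∧ ‖Q'.coeff i - Q.coeff i‖ < ε) ∧
      ∃ f' : OnePoint ℂ → OnePoint ℂ, Continuous f' ∧
        (∀ z : ℂ, Q'.eval z ≠ 0 →
          f' (OnePoint.some z) = OnePoint.some (P'.eval z / Q'.eval z)) ∧
        ∀ c : OnePoint ℂ, (¬ ∃ U ∈ nhds c, Set.InjOn f' U) →
          ∃ z : OnePoint ℂ, ∃ n : ℕ, 0 < n ∧ f'^[n] z = z ∧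
            (∃ U ∈ nhds z, ∀ w ∈ U,
              Filter.Tendsto (fun k : ℕ => f'^[n * k] w) Filter.atTop (nhds z)) ∧
            Filter.Tendsto (fun k : ℕ => f'^[n * k] c) Filter.atTop (nhds z) := by
  classical
  have hd0 : 0 < d := by omega
  have hP : P.natDegree ≤ d := hdeg ▸ le_max_left _ _
  have hQle : Q.natDegree ≤ d := hdeg ▸ le_max_right _ _
  -- `f ∞` is finite
  have hfinf : f ∞ ≠ ∞ := by
    intro h
    obtain ⟨n, -, z, -, -, -, ht⟩ := hinf
    have h1 : ∀ k : ℕ, f^[k] (∞ : OnePoint ℂ) = ∞ := by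
      intro k
      induction k with
      | zero => rfl
      | succ k ih => rw [Function.iterate_succ_apply', ih, h]
    have h2 : Tendsto (fun _ : ℕ => (∞ : OnePoint ℂ)) atTop (𝓝 (z : OnePoint ℂ)) :=
      ht.congr fun k => h1 _
    exact OnePoint.coe_ne_infty z (tendsto_nhds_unique h2 tendsto_const_nhds)
  -- `Q ≠ 0`
  have hQ0 : Q ≠ 0 := by
    intro h
    have h1 : IsUnit P := by
      rw [h] at hPQ
      exact isCoprime_zero_right.1 hPQ
    have h2 := Polynomial.natDegree_eq_zero_of_isUnit h1
    rw [h2, h] at hdeg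
    simp at hdeg
    omega
  have hrat : Pool.Agent.Helper114.Herman.IsRat f P Q := ⟨hf, hPQ, hQ0, hfe⟩
  have hfs : f = Pool.Agent.H792R2.CE.sph d P Q := by
    funext x
    induction x using OnePoint.rec with
    | infty =>
      have h1 := Pool.Agent.Helper114.Herman.rat_formula hrat hdeg.symm hd0 (u := 1) (v := 0)
        (Or.inl one_ne_zero)
      rw [Pool.Agent.Helper114.Herman.pr_zero, Pool.Agent.Helper114.Herman.hom_zero,
        Pool.Agent.Helper114.Herman.hom_zero, one_pow, mul_one, mul_one] at h1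
      rw [h1]
      rfl
    | coe z =>
      have h1 := Pool.Agent.Helper114.Herman.rat_formula hrat hdeg.symm hd0 (u := z) (v := 1)
        (Or.inr one_ne_zero)
      rw [Pool.Agent.Helper114.Herman.pr_one, Pool.Agent.Helper114.Herman.hom_ne hP one_ne_zero,
        Pool.Agent.Helper114.Herman.hom_ne hQle one_ne_zero, one_pow, one_mul, one_mul,
        div_one] at h1
      rw [h1]
      rfl
  have hQd : Q.natDegree = d := by
    refine le_antisymm hQle (Polynomial.le_natDegree_of_ne_zero ?_)
    intro h0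
    apply hfinf
    rw [hfs, Pool.Agent.H792R2.CE.sph_infty, h0, Pool.Agent.Helper114.Herman.pr_zero]
  have hatt : ∀ x, Attracted f (plane P Q) x ↔ Pool.Agent.H792R2.CE.Att d P Q x := by
    intro x
    rw [hfs]
    exact Iff.rfl
  intro ε hε
  obtain ⟨P', Q', hcop, hP', hQ', hclose, hall⟩ := Pool.Agent.H792R2.CE.core hd hPQ hP hQd
    ((hatt ∞).1 hinf)
    (by
      have h1 : {z : ℂ | Pool.Agent.H792R2.CE.Att d P Q (z : OnePoint ℂ)} =
          {z : ℂ | Attracted f (plane P Q) (z : OnePoint ℂ)} := by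
        ext z
        exact (hatt _).symm
      rw [h1]
      exact hdense) hμ
    (hexp.mono fun n hn c hc => (hn c hc).imp (hatt _).1 id)
    (fun c hc => (hsimple c hc).imp (hatt _).1 id) ε hε
  have hcont := Pool.Agent.H792R2.CE.B1_continuous hcop hP' hQ'
  refine ⟨P', Q', hcop, ?_, hclose, Pool.Agent.H792R2.CE.sph d P' Q', hcont, ?_, ?_⟩
  · rw [hQ']
    exact max_eq_right hP'
  · intro z hz
    exact Pool.Agent.H792R2.CE.sph_coe_of_ne hz
  · intro c hc
    rcases hall c with h | h
    · exact Pool.Agent.H792R2.CE.C3_sinks hcont h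
    · exact absurd h hc

end Pool.Agent.Results.MP_8f2e1c_an.ExpandingCritical
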