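import Mathlib
import Pool.Agent.H762R2.RtD

set_option autoImplicit false

open Set Filter Topology

namespace Pool.Agent.Results.MP_8f2e1c_an.PowerFamilies

/-- `P / Q` is in lowest terms and every critical point (point of the Riemann sphere where the map
is not locally injective) has an orbit converging to an attracting periodic cycle. This is word
for word the condition of the frozen statement `S03675`. -/
def Hyperbolic (P Q : Polynomial ℂ) : Prop :=
  IsCoprime P Q ∧ ∃ f : OnePoint ℂ → OnePoint ℂ, Continuous f ∧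
    (∀ z : ℂ, Q.eval z ≠ 0 →
      f (OnePoint.some z) = OnePoint.some (P.eval z / Q.eval z)) ∧
    ∀ c : OnePoint ℂ, (¬ ∃ U ∈ nhds c, Set.InjOn f U) →
      ∃ z : OnePoint ℂ, ∃ n : ℕ, 0 < n ∧ f^[n] z = z ∧
        (∃ U ∈ nhds z, ∀ w ∈ U,
          Filter.Tendsto (fun k : ℕ => f^[n * k] w) Filter.atTop (nhds z)) ∧
        Filter.Tendsto (fun k : ℕ => f^[n * k] c) Filter.atTop (nhds z)

/-- The normalised class: `P / Q` is in lowest terms, of degree `D`, with coefficients of modulus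
at most `M`, and with `(P, Q)` at `0` and at `∞` of size at least `1 / M`. -/
def Normalised (D : ℕ) (M : ℝ) (P Q : Polynomial ℂ) : Prop :=
  IsCoprime P Q ∧ max P.natDegree Q.natDegree = D ∧
    (∀ k, ‖P.coeff k‖ ≤ M) ∧ (∀ k, ‖Q.coeff k‖ ≤ M) ∧
    M⁻¹ ≤ max ‖P.coeff 0‖ ‖Q.coeff 0‖ ∧ M⁻¹ ≤ max ‖P.coeff D‖ ‖Q.coeff D‖

/-- `e` is a critical radius: `|e P / Q| = 1` at `0`, at `∞`, or at a finite critical point
of `P / Q` (a zero of `P' Q - P Q'`). -/
def CriticalRadius (P Q : Polynomial ℂ) (e : ℝ) : Prop :=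
  ∃ p q : ℂ, p ≠ 0 ∧ e = ‖q‖ / ‖p‖ ∧
    ((p = P.coeff 0 ∧ q = Q.coeff 0) ∨
      (p = P.coeff (max P.natDegree Q.natDegree) ∧ q = Q.coeff (max P.natDegree Q.natDegree)) ∨
      ∃ y : ℂ, (Polynomial.derivative P * Q - P * Polynomial.derivative Q).eval y = 0 ∧
        p = P.eval y ∧ q = Q.eval y)

theorem result :
    (∀ P Q : Polynomial ℂ, IsCoprime P Q → 1 ≤ max P.natDegree Q.natDegree →
      (∃ M : ℝ, 1 ≤ M ∧ Normalised (max P.natDegree Q.natDegree) M P Q) ∧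
      {e : ℝ | CriticalRadius P Q e}.Finite ∧
      {e : ℝ | CriticalRadius P Q e}.ncard ≤ 2 * max P.natDegree Q.natDegree + 1) ∧
    ∀ D : ℕ, 1 ≤ D → ∀ M : ℝ, 1 ≤ M → ∃ C : ℝ, 0 < C ∧ ∃ n₀ : ℕ,
      ∀ P Q : Polynomial ℂ, Normalised D M P Q →
        (∀ n : ℕ, 2 ≤ n → ∀ s : ℂ, M⁻¹ ≤ ‖s‖ → ‖s‖ ≤ M →
          (∀ e : ℝ, CriticalRadius P Q e → C * (Real.log n / n) ≤ |‖s‖ - e|) →
          Hyperbolic (Polynomial.C s * Polynomial.expand ℂ n P) (Polynomial.expand ℂ n Q)) ∧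
        (∀ n : ℕ, n₀ ≤ n → ∃ s : ℝ, 1 ≤ s ∧ s ≤ 1 + C * (Real.log n / n) ∧
          Hyperbolic (Polynomial.C (s : ℂ) * Polynomial.expand ℂ n P)
            (Polynomial.expand ℂ n Q)) := by
  have hrad : ∀ P Q : Polynomial ℂ, IsCoprime P Q → 1 ≤ max P.natDegree Q.natDegree → ∀ e : ℝ,
      CriticalRadius P Q e ↔ e ∈ Pool.Agent.H762R2.Rt.radii P Q := by
    intro P Q hc hD e
    have hw := Pool.Agent.H762R2.Rt.wro_ne_zero hc hD
    unfold Pool.Agent.H762R2.Rt.radii Pool.Agent.H762R2.Rt.marks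
    simp only [Finset.mem_image, Finset.mem_filter, Finset.mem_insert, Multiset.mem_toFinset,
      Polynomial.mem_roots hw]
    constructor
    · rintro ⟨p, q, hp, rfl, h⟩
      refine ⟨(p, q), ⟨?_, hp⟩, rfl⟩
      rcases h with ⟨rfl, rfl⟩ | ⟨rfl, rfl⟩ | ⟨y, hy, rfl, rfl⟩
      · exact Or.inl rfl
      · exact Or.inr (Or.inl rfl)
      · exact Or.inr (Or.inr ⟨y, hy, rfl⟩)
    · rintro ⟨⟨p, q⟩, ⟨h, hp⟩, rfl⟩
      refine ⟨p, q, hp, rfl, ?_⟩
      rcases h with h | h | ⟨y, hy, h⟩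
      · rw [Prod.mk.injEq] at h
        exact Or.inl h
      · rw [Prod.mk.injEq] at h
        exact Or.inr (Or.inl h)
      · rw [Prod.mk.injEq] at h
        exact Or.inr (Or.inr ⟨y, hy, h.1.symm, h.2.symm⟩)
  have hset : ∀ P Q : Polynomial ℂ, IsCoprime P Q → 1 ≤ max P.natDegree Q.natDegree →
      {e : ℝ | CriticalRadius P Q e} = ↑(Pool.Agent.H762R2.Rt.radii P Q) := by
    intro P Q hc hD
    ext e
    simpa using hrad P Q hc hD e
  refine ⟨?_, ?_⟩
  · intro P Q hc hD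
    refine ⟨Pool.Agent.H762R2.Rt.exists_cls hc hD, ?_, ?_⟩
    · rw [hset P Q hc hD]
      exact Finset.finite_toSet _
    · rw [hset P Q hc hD, Set.ncard_coe_finset]
      exact Pool.Agent.H762R2.Rt.card_radii hc hD
  · intro D hD M hM
    obtain ⟨C₁, hC₁, h₁⟩ := Pool.Agent.H762R2.Rt.hyp_family D hD M hM
    obtain ⟨C₂, hC₂, n₀, h₂⟩ := Pool.Agent.H762R2.Rt.coarse D hD M hM
    refine ⟨C₁ + C₂, by linarith, max n₀ 1, ?_⟩
    intro P Q hcls
    have hD' : 1 ≤ max P.natDegree Q.natDegree := by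
      have := hcls.2.1
      omega
    refine ⟨?_, ?_⟩
    · intro n hn s hs1 hs2 hs
      refine h₁ P Q hcls n hn s hs1 hs2 ?_
      intro e he
      have h3 := hs e ((hrad P Q hcls.1 hD' e).2 he)
      have hn2 : (2 : ℝ) ≤ n := by exact_mod_cast hn
      have : 0 ≤ Real.log n / n := div_nonneg (Real.log_nonneg (by linarith)) (by linarith)
      nlinarith
    · intro n hn
      obtain ⟨s, hs1, hs2, hs3⟩ := h₂ P Q hcls n (le_of_max_le_left hn)
      refine ⟨s, hs1, hs2.trans ?_, hs3⟩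
      have hn1 : (1 : ℝ) ≤ n := by exact_mod_cast le_of_max_le_right hn
      have : 0 ≤ Real.log n / n := div_nonneg (Real.log_nonneg hn1) (by linarith)
      nlinarith

end Pool.Agent.Results.MP_8f2e1c_an.PowerFamilies
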