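import Mathlib
import Pool.Agent.H790R3.RB.Main

/-! Fatou's conjecture for rational maps whose set of non-attracted points has zero area: every
such map is a limit of hyperbolic rational maps of the same degree. -/

set_option autoImplicit false

open Topology Filter MeasureTheory

namespace Pool.Agent.Results.MP_8f2e1c_an.ZeroArea

/-- `f` is the rational map `P / Q` on the Riemann sphere. -/
def IsRationalMap (P Q : Polynomial ℂ) (f : OnePoint ℂ → OnePoint ℂ) : Prop :=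
  Continuous f ∧ ∀ z : ℂ, Q.eval z ≠ 0 →
    f (OnePoint.some z) = OnePoint.some (P.eval z / Q.eval z)

/-- `a` is a point of an attracting cycle of `f` whose period divides `n`: `f^n` fixes `a` and the
iterates of `f^n` converge to `a` uniformly on a neighbourhood of `a`. -/
def IsSink (f : OnePoint ℂ → OnePoint ℂ) (n : ℕ) (a : OnePoint ℂ) : Prop :=
  0 < n ∧ f^[n] a = a ∧
    ∃ U ∈ nhds a, ∀ V ∈ nhds a, ∀ᶠ k : ℕ in Filter.atTop, ∀ w ∈ U, f^[n * k] w ∈ V

/-- `z` is in the basin of an attracting cycle of `f`. -/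
def Attracted (f : OnePoint ℂ → OnePoint ℂ) (z : OnePoint ℂ) : Prop :=
  ∃ (n : ℕ) (a : OnePoint ℂ), IsSink f n a ∧
    Filter.Tendsto (fun k : ℕ => f^[n * k] z) Filter.atTop (nhds a)

/-- `P / Q` is hyperbolic: word for word the condition of the frozen statement S03675. -/
def Hyperbolic (P Q : Polynomial ℂ) : Prop :=
  ∃ f : OnePoint ℂ → OnePoint ℂ, Continuous f ∧
    (∀ z : ℂ, Q.eval z ≠ 0 →
      f (OnePoint.some z) = OnePoint.some (P.eval z / Q.eval z)) ∧
    ∀ c : OnePoint ℂ, (¬ ∃ U ∈ nhds c, Set.InjOn f U) →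
      ∃ z : OnePoint ℂ, ∃ n : ℕ, 0 < n ∧ f^[n] z = z ∧
        (∃ U ∈ nhds z, ∀ w ∈ U,
          Filter.Tendsto (fun k : ℕ => f^[n * k] w) Filter.atTop (nhds z)) ∧
        Filter.Tendsto (fun k : ℕ => f^[n * k] c) Filter.atTop (nhds z)

open Pool.Agent.H790R3.RB in
/-- Let `f = P / Q` be a rational map of degree `d ≥ 2` such that the set of points of the plane
which are not in the basin of an attracting cycle has zero area. Then `f` is a limit of hyperbolic
rational maps of degree `d`. -/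
theorem result (d : ℕ) (hd : 2 ≤ d) (P Q : Polynomial ℂ) (hPQ : IsCoprime P Q)
    (hdeg : max P.natDegree Q.natDegree = d) (f : OnePoint ℂ → OnePoint ℂ)
    (hf : IsRationalMap P Q f)
    (harea : volume {z : ℂ | ¬ Attracted f (OnePoint.some z)} = 0) :
    ∀ ε : ℝ, 0 < ε → ∃ P' Q' : Polynomial ℂ, IsCoprime P' Q' ∧
      max P'.natDegree Q'.natDegree = d ∧
      (∀ i : ℕ, ‖P'.coeff i - P.coeff i‖ < ε ∧ ‖Q'.coeff i - Q.coeff i‖ < ε) ∧
      Hyperbolic P' Q' := by
  intro ε hε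
  have hd1 : 1 ≤ d := by omega
  obtain ⟨h1, h2⟩ := PQ SP d hd1
  obtain ⟨x₀, hnd, hx0, hx1, hfe⟩ := h2 P Q hPQ hdeg
  have hfx : f = sp x₀ := hfe f hf.1 hf.2
  have hvol : volume {z : ℂ | ¬ Attd (sp x₀) (z : OnePoint ℂ)} = 0 := by
    rw [← hfx]; exact harea
  obtain ⟨x, hx, hxnd, hhyp⟩ := t_ALL d x₀ hd hnd hvol ε hε
  obtain ⟨hcop, hmax, hco, hhi, hev⟩ := h1 x hxnd
  obtain ⟨-, -, hco0, hhi0, -⟩ := h1 x₀ hnd
  have hcoef : ∀ i : Fin 2, ∀ j : ℕ, ‖(pol x i).coeff j - (pol x₀ i).coeff j‖ < ε := by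
    intro i j
    by_cases hj : d < j
    · rw [hhi i j hj, hhi0 i j hj, sub_zero, norm_zero]; exact hε
    · have e1 := hco i ⟨j, by omega⟩
      have e2 := hco0 i ⟨j, by omega⟩
      simp only at e1 e2
      rw [e1, e2]
      exact (norm_le_pi_norm (x - x₀) (i, ⟨j, by omega⟩)).trans_lt hx
  refine ⟨pol x 0, pol x 1, hcop, hmax, fun i => ⟨?_, ?_⟩, sp x, (SP d x hd1 hxnd).1, hev, hhyp⟩
  · rw [← hx0]; exact hcoef 0 i
  · rw [← hx1]; exact hcoef 1 i

end Pool.Agent.Results.MP_8f2e1c_an.ZeroArea
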